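import Mathlib
import Pool.Agent.K4H1.RB.WAStm

/-!
# Weak approximation at the real places

Every function on the real places of a number field with values `±1` is given by the signs of an
element of the field; in terms of the absolute Galois group: there is a quadratic character of the
open subgroup `H` with prescribed values (invariant under conjugation) on the complex conjugations
of `H`.
-/

set_option autoImplicit false

namespace Pool.Agent.K4H55.WA

open Polynomial Pool.Agent.K4H1.RB

/-- rational polynomial with prescribed signs at finitely many real numbers -/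
theorem signs (R : Set ℝ) (hR : R.Finite) (N : Set ℝ) (hN : N ⊆ R) :
    ∃ p : ℚ[X], ∀ r ∈ R, (r ∈ N → aeval r p < 0) ∧ (r ∉ N → 0 < aeval r p) := by
  classical
  have h1 : ∀ r : ℝ, ∃ a b : ℚ, (a : ℝ) < r ∧ r < (b : ℝ) ∧
      ∀ x ∈ R, x ≠ r → (x < a ∨ (b : ℝ) < x) := by
    intro r
    have hfin : (R \ {r}).Finite := hR.subset Set.sdiff_subset
    have hop : IsOpen ((R \ {r})ᶜ) := hfin.isClosed.isOpen_compl
    have hr : r ∈ (R \ {r})ᶜ := by simp
    obtain ⟨ε, he, hball⟩ := Metric.isOpen_iff.1 hop r hr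
    obtain ⟨a, ha1, ha2⟩ := exists_rat_btwn (show r - ε < r by linarith)
    obtain ⟨b, hb1, hb2⟩ := exists_rat_btwn (show r < r + ε by linarith)
    refine ⟨a, b, ha2, hb1, ?_⟩
    intro x hx hxr
    by_contra hcon
    push Not at hcon
    have : x ∈ Metric.ball r ε := by
      rw [Metric.mem_ball, Real.dist_eq, abs_lt]
      constructor <;> linarith [hcon.1, hcon.2]
    exact hball this ⟨hx, hxr⟩
  choose a b ha hb hab using h1
  have hNf : N.Finite := hR.subset hN
  refine ⟨∏ r ∈ hNf.toFinset, (X - C (a r)) * (X - C (b r)), ?_⟩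
  intro r hr
  have hval : aeval r (∏ r ∈ hNf.toFinset, (X - C (a r)) * (X - C (b r))) =
      ∏ t ∈ hNf.toFinset, (r - (a t : ℝ)) * (r - (b t : ℝ)) := by
    rw [map_prod]
    refine Finset.prod_congr rfl fun t _ => ?_
    simp
  have hpos : ∀ t, t ≠ r → 0 < (r - (a t : ℝ)) * (r - (b t : ℝ)) := by
    intro t ht
    rcases hab t r hr (Ne.symm ht) with h | h
    · have h2 := ha t
      have h3 := hb t
      exact mul_pos_of_neg_of_neg (by linarith) (by linarith)
    · have h2 := ha t
      have h3 := hb t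
      exact mul_pos (by linarith) (by linarith)
  rw [hval]
  constructor
  · intro hrN
    have hmem : r ∈ hNf.toFinset := by simpa using hrN
    rw [← Finset.mul_prod_erase _ _ hmem]
    refine mul_neg_of_neg_of_pos ?_ ?_
    · have h2 := ha r
      have h3 := hb r
      exact mul_neg_of_pos_of_neg (by linarith) (by linarith)
    · refine Finset.prod_pos fun t ht => hpos t ?_
      exact (Finset.mem_erase.1 ht).1
  · intro hrN
    refine Finset.prod_pos fun t ht => hpos t ?_
    rintro rfl
    exact hrN (by simpa using ht)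

theorem transport {A B : Type*} [Field A] [Field B] (i j : Algebra A B) (h : i = j)
    (hi : letI := i; IsAlgClosure A B) : letI := j; IsAlgClosure A B := by
  subst h
  exact hi

theorem isAlgClosureQ : IsAlgClosure ℚ (AlgebraicClosure ℚ) :=
  transport (AlgebraicClosure.instAlgebra ℚ) DivisionRing.toRatAlgebra (Subsingleton.elim _ _)
    inferInstance

theorem isGaloisQ : IsGalois ℚ (AlgebraicClosure ℚ) :=
  haveI := isAlgClosureQ
  IsAlgClosure.isGalois ℚ (AlgebraicClosure ℚ)

theorem primitive {k E : Type*} [Field k] [Field E] [Algebra k E] (F : IntermediateField k E)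
    (hF : FiniteDimensional k F) (hS : Algebra.IsSeparable k F) :
    ∃ θ : E, IntermediateField.adjoin k {θ} = F := by
  obtain ⟨θ', hθ'⟩ := Field.exists_primitive_element k F
  refine ⟨θ', ?_⟩
  rw [← IntermediateField.lift_adjoin_simple, hθ', IntermediateField.lift_top]

/-- two embeddings of the algebraic closure differ by an automorphism -/
theorem differ (φ φ' : AlgebraicClosure ℚ →+* ℂ) :
    ∃ h : GQ, ∀ x, φ (h x) = φ' x := by
  have hG : IsGalois ℚ (AlgebraicClosure ℚ) := isGaloisQ
  have hN : Normal ℚ (AlgebraicClosure ℚ) := hG.to_normal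
  let ψ : AlgebraicClosure ℚ →ₐ[ℚ] ℂ := φ'.toRatAlgHom
  let : Algebra (AlgebraicClosure ℚ) ℂ := φ.toAlgebra
  have : IsScalarTower ℚ (AlgebraicClosure ℚ) ℂ :=
    IsScalarTower.of_algebraMap_eq' (Subsingleton.elim _ _)
  refine ⟨AlgHom.restrictNormal' ψ (AlgebraicClosure ℚ), fun x => ?_⟩
  have := AlgHom.restrictNormal_commutes ψ (AlgebraicClosure ℚ) x
  exact this

/-- an element of `ℂ` whose square is a positive real number is real -/
theorem conj_of_pos (z : ℂ) (a : ℝ) (ha : 0 < a) (h : z * z = (a : ℂ)) :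
    (starRingEnd ℂ) z = z := by
  rw [Complex.conj_eq_iff_im]
  have h1 := congrArg Complex.re h
  have h2 := congrArg Complex.im h
  simp only [Complex.mul_re, Complex.mul_im, Complex.ofReal_re, Complex.ofReal_im] at h1 h2
  have h3 : z.re * z.im = 0 := by linarith
  rcases mul_eq_zero.1 h3 with h4 | h4
  · rw [h4] at h1
    nlinarith [mul_self_nonneg z.im]
  · exact h4

/-- an element of `ℂ` whose square is a negative real number is purely imaginary -/
theorem conj_of_neg (z : ℂ) (a : ℝ) (ha : a < 0) (h : z * z = (a : ℂ)) :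
    (starRingEnd ℂ) z = -z := by
  have h1 := congrArg Complex.re h
  have h2 := congrArg Complex.im h
  simp only [Complex.mul_re, Complex.mul_im, Complex.ofReal_re, Complex.ofReal_im] at h1 h2
  have h3 : z.re * z.im = 0 := by linarith
  have h5 : z.re = 0 := by
    rcases mul_eq_zero.1 h3 with h4 | h4
    · exact h4
    · rw [h4] at h1
      nlinarith [mul_self_nonneg z.re]
  apply Complex.ext
  · simp [h5]
  · simp

/-- weak approximation at the real places -/
theorem wa : WA := by
  classical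
  intro H hH s hs
  have hG : IsGalois ℚ (AlgebraicClosure ℚ) := isGaloisQ
  have := isAlgClosureQ
  have : IsAlgClosed (AlgebraicClosure ℚ) := IsAlgClosure.isAlgClosed ℚ
  -- the fixed field and its primitive element
  have hcl : IsClosed (H : Set GQ) := H.isClosed_of_isOpen hH
  let Hc : ClosedSubgroup GQ := ⟨H, hcl⟩
  let F : IntermediateField ℚ (AlgebraicClosure ℚ) := IntermediateField.fixedField H
  have hFH : F.fixingSubgroup = H := InfiniteGalois.fixingSubgroup_fixedField Hc
  have hFfin : FiniteDimensional ℚ F := by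
    rw [← InfiniteGalois.isOpen_iff_finite, hFH]
    exact hH
  obtain ⟨θ, hθ⟩ : ∃ θ : AlgebraicClosure ℚ, IntermediateField.adjoin ℚ {θ} = F :=
    primitive F hFfin inferInstance
  have hmem : ∀ g : GQ, g ∈ H ↔ g θ = θ := by
    intro g
    rw [← hFH, IntermediateField.mem_fixingSubgroup_iff, ← hθ]
    have := IntermediateField.forall_mem_adjoin_smul_eq_self_iff ℚ (S := {θ}) g
    simpa using this
  -- the real values of `θ`
  have hreal : ∀ c : GQ, c ∈ H → ∀ φ : AlgebraicClosure ℚ →+* ℂ,
      (∀ x, φ (c x) = (starRingEnd ℂ) (φ x)) → φ θ = (((φ θ).re : ℝ) : ℂ) := by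
    intro c hc φ hφ
    have h1 := hφ θ
    rw [(hmem c).1 hc] at h1
    exact (Complex.conj_eq_iff_re.1 h1.symm).symm
  let R : Set ℝ := {r | ∃ c ∈ H, ∃ φ : AlgebraicClosure ℚ →+* ℂ,
      (∀ x, φ (c x) = (starRingEnd ℂ) (φ x)) ∧ φ θ = (r : ℂ)}
  let N : Set ℝ := {r | ∃ c ∈ H, ∃ φ : AlgebraicClosure ℚ →+* ℂ,
      (∀ x, φ (c x) = (starRingEnd ℂ) (φ x)) ∧ φ θ = (r : ℂ) ∧ s c = -1}
  have hNR : N ⊆ R := fun r ⟨c, hc, φ, h1, h2, _⟩ => ⟨c, hc, φ, h1, h2⟩
  have hint : IsIntegral ℚ θ := Algebra.IsIntegral.isIntegral θ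
  have hRfin : R.Finite := by
    refine (Polynomial.rootSet_finite (minpoly ℚ θ) ℝ).subset ?_
    rintro r ⟨c, hc, φ, hφ, hr⟩
    rw [Polynomial.mem_rootSet]
    refine ⟨minpoly.ne_zero hint, ?_⟩
    have h1 : φ.toRatAlgHom (aeval θ (minpoly ℚ θ)) = 0 := by
      rw [minpoly.aeval, map_zero]
    rw [← Polynomial.aeval_algHom_apply] at h1
    have h2 : φ.toRatAlgHom θ = algebraMap ℝ ℂ r := hr
    rw [h2, Polynomial.aeval_algebraMap_apply] at h1
    exact (map_eq_zero_iff _ (algebraMap ℝ ℂ).injective).1 h1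
  obtain ⟨p, hp⟩ := signs R hRfin N hNR
  -- the sign is well defined
  have hwell : ∀ c ∈ H, ∀ φ : AlgebraicClosure ℚ →+* ℂ,
      (∀ x, φ (c x) = (starRingEnd ℂ) (φ x)) → ∀ c' ∈ H, ∀ φ' : AlgebraicClosure ℚ →+* ℂ,
      (∀ x, φ' (c' x) = (starRingEnd ℂ) (φ' x)) → φ θ = φ' θ → s c = s c' := by
    intro c hc φ hφ c' hc' φ' hφ' heq
    obtain ⟨h, hh⟩ := differ φ φ'
    have hhH : h ∈ H := by
      rw [hmem]
      apply φ.injective
      rw [hh θ, heq]
    have hrel : h * c' = c * h := by
      ext x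
      apply φ.injective
      rw [AlgEquiv.mul_apply, AlgEquiv.mul_apply, hh (c' x), hφ' x, hφ (h x), hh x]
    have hcc : c = h * c' * h⁻¹ := by
      rw [hrel, mul_inv_cancel_right]
    rw [hcc]
    exact hs c' hc' ⟨φ', hφ'⟩ h hhH
  by_cases hex : ∃ c ∈ H, IsCC c
  · -- the element `α` and its square root
    let α : AlgebraicClosure ℚ := aeval θ p
    obtain ⟨β, hβ⟩ := IsAlgClosed.exists_eq_mul_self α
    have hφα : ∀ φ : AlgebraicClosure ℚ →+* ℂ, ∀ r : ℝ, φ θ = (r : ℂ) →
        φ β * φ β = ((aeval r p : ℝ) : ℂ) := by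
      intro φ r hr
      rw [← map_mul, ← hβ]
      have h1 : φ.toRatAlgHom (aeval θ p) = aeval (φ.toRatAlgHom θ) p := by
        rw [← Polynomial.aeval_algHom_apply]
      have h2 : φ.toRatAlgHom θ = algebraMap ℝ ℂ r := hr
      rw [h2, Polynomial.aeval_algebraMap_apply] at h1
      exact h1
    have hα : α ≠ 0 := by
      obtain ⟨c, hc, φ, hφ⟩ := hex
      intro h0
      have h1 := hreal c hc φ hφ
      have h2 := hφα φ _ h1
      rw [← map_mul, ← hβ, h0, map_zero] at h2
      have h3 : aeval (φ θ).re p = (0 : ℝ) := by exact_mod_cast h2.symm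
      have h4 := hp (φ θ).re ⟨c, hc, φ, hφ, h1⟩
      by_cases hN : (φ θ).re ∈ N
      · exact absurd h3 (h4.1 hN).ne
      · exact absurd h3 (h4.2 hN).ne'
    have hβ0 : β ≠ 0 := by
      rintro rfl
      exact hα (by rw [hβ, mul_zero])
    have hgα : ∀ g ∈ H, g α = α := by
      intro g hg
      have h1 : (g : AlgebraicClosure ℚ →ₐ[ℚ] AlgebraicClosure ℚ) (aeval θ p) =
          aeval ((g : AlgebraicClosure ℚ →ₐ[ℚ] AlgebraicClosure ℚ) θ) p := by
        rw [← Polynomial.aeval_algHom_apply]
      have h2 : (g : AlgebraicClosure ℚ →ₐ[ℚ] AlgebraicClosure ℚ) θ = θ := (hmem g).1 hg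
      rw [h2] at h1
      exact h1
    have hgβ : ∀ g ∈ H, g β = β ∨ g β = -β := by
      intro g hg
      have h1 : g β * g β = β * β := by
        rw [← map_mul, ← hβ, hgα g hg]
      exact mul_self_eq_mul_self_iff.1 h1
    have hβneg : β ≠ -β := by
      intro h
      apply hβ0
      have : (2 : AlgebraicClosure ℚ) * β = 0 := by
        rw [two_mul]
        nth_rewrite 2 [h]
        ring
      simpa using this
    let χ : H →* ℤˣ :=
      { toFun := fun g => if (g : GQ) β = β then 1 else -1
        map_one' := by simp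
        map_mul' := by
          rintro ⟨g, hg⟩ ⟨h, hh⟩
          rcases hgβ g hg with h1 | h1 <;> rcases hgβ h hh with h2 | h2 <;>
            simp [AlgEquiv.mul_apply, h1, h2, hβneg.symm] }
    refine ⟨χ, ?_, ?_⟩
    · have hst := stabilizer_isOpen_of_isIntegral (K := ℚ) (L := AlgebraicClosure ℚ) β
      have : ((χ.ker.map H.subtype : Subgroup GQ) : Set GQ) =
          (H : Set GQ) ∩ (MulAction.stabilizer GQ β : Set GQ) := by
        ext g
        simp only [Subgroup.coe_map, Set.mem_image, SetLike.mem_coe, Set.mem_inter_iff]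
        constructor
        · rintro ⟨⟨g', hg'⟩, hk, rfl⟩
          refine ⟨hg', ?_⟩
          rw [MonoidHom.mem_ker] at hk
          by_contra hne
          have h1 : ¬ (g' β = β) := hne
          have h2 : χ ⟨g', hg'⟩ = -1 := if_neg h1
          rw [h2] at hk
          exact absurd hk (by decide)
        · rintro ⟨hgH, hgs⟩
          refine ⟨⟨g, hgH⟩, ?_, rfl⟩
          rw [MonoidHom.mem_ker]
          exact if_pos hgs
      rw [this]
      exact hH.inter hst
    · rintro ⟨c, hc⟩ ⟨φ, hφ⟩
      have h1 := hreal c hc φ hφ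
      have h2 := hφα φ _ h1
      have h4 := hp (φ θ).re ⟨c, hc, φ, hφ, h1⟩
      by_cases hN : (φ θ).re ∈ N
      · have h5 := conj_of_neg _ _ (h4.1 hN) h2
        rw [← hφ β, ← map_neg] at h5
        have h6 : c β = -β := φ.injective h5
        have h7 : χ ⟨c, hc⟩ = -1 := by
          refine if_neg ?_
          show ¬ (c β = β)
          rw [h6]
          exact hβneg.symm
        obtain ⟨c', hc', φ', hφ', hr', hs'⟩ := hN
        have h8 := hwell c hc φ hφ c' hc' φ' hφ' (by rw [hr', h1]; simp)
        show χ ⟨c, hc⟩ = s c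
        rw [h7, h8, hs']
      · have h5 := conj_of_pos _ _ (h4.2 hN) h2
        rw [← hφ β] at h5
        have h6 : c β = β := φ.injective h5
        have h7 : χ ⟨c, hc⟩ = 1 := if_pos h6
        show χ ⟨c, hc⟩ = s c
        rw [h7]
        rcases Int.units_eq_one_or (s c) with h8 | h8
        · exact h8.symm
        · exact absurd ⟨c, hc, φ, hφ, h1, h8⟩ hN
  · refine ⟨1, ?_, ?_⟩
    · have : (((1 : H →* ℤˣ).ker.map H.subtype : Subgroup GQ) : Set GQ) = (H : Set GQ) := by
        ext g
        simp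
      rw [this]
      exact hH
    · rintro ⟨c, hc⟩ hcc
      exact absurd ⟨c, hc, hcc⟩ hex

end Pool.Agent.K4H55.WA
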